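import Pool.Agent.H24.RSM.Stmts

/-!
# Rational sphere maps: construction of maps with a prescribed defect (module CON)
-/

open MvPolynomial
open Pool.Agent.H24.RSM

namespace Pool.Agent.H30.RSM

/-- the letter `none` stands for `1`, the letter `some j` for `X j`. -/
noncomputable def let1 {n : ℕ} (o : Option (Fin n)) : MvPolynomial (Fin n) ℂ :=
  match o with
  | none => 1
  | some j => X j

/-- the product of the letters of a word. -/
noncomputable def word {n d : ℕ} (a : Fin d → Option (Fin n)) : MvPolynomial (Fin n) ℂ :=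
  ∏ i, let1 (a i)

lemma ev_add {n : ℕ} (z : E n) (p r : MvPolynomial (Fin n) ℂ) :
    ev z (p + r) = ev z p + ev z r := by simp [ev]

lemma ev_mul {n : ℕ} (z : E n) (p r : MvPolynomial (Fin n) ℂ) :
    ev z (p * r) = ev z p * ev z r := by simp [ev]

lemma ev_C {n : ℕ} (z : E n) (c : ℂ) :
    ev z (C c : MvPolynomial (Fin n) ℂ) = c := by simp [ev]

lemma ev_X {n : ℕ} (z : E n) (i : Fin n) :
    ev z (X i : MvPolynomial (Fin n) ℂ) = z i := by simp [ev]

lemma ev_sum {n : ℕ} {ι : Type*} (s : Finset ι) (z : E n) (p : ι → MvPolynomial (Fin n) ℂ) :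
    ev z (∑ i ∈ s, p i) = ∑ i ∈ s, ev z (p i) := by simp [ev]

lemma ev_prod {n : ℕ} {ι : Type*} (s : Finset ι) (z : E n) (p : ι → MvPolynomial (Fin n) ℂ) :
    ev z (∏ i ∈ s, p i) = ∏ i ∈ s, ev z (p i) := by simp [ev]

lemma continuous_ev {n : ℕ} (p : MvPolynomial (Fin n) ℂ) : Continuous fun z : E n => ev z p := by
  unfold ev
  have h : Continuous fun z : E n => (fun i => z i : Fin n → ℂ) := by
    fun_prop
  exact (MvPolynomial.continuous_eval p).comp h

lemma normSq_eq {n : ℕ} (z : E n) : ‖z‖ ^ 2 = ∑ i, ‖z i‖ ^ 2 := by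
  rw [EuclideanSpace.norm_eq, Real.sq_sqrt]
  exact Finset.sum_nonneg fun i _ => sq_nonneg _

lemma sum_let {n : ℕ} (z : E n) : ∑ o : Option (Fin n), ‖ev z (let1 o)‖ ^ 2 = 1 + ‖z‖ ^ 2 := by
  rw [Fintype.sum_option, normSq_eq]
  congr 1
  · have : ev z (let1 (none : Option (Fin n))) = 1 := by simp [let1, ev]
    rw [this]; simp
  · refine Finset.sum_congr rfl fun i _ => ?_
    have : ev z (let1 (some i)) = z i := by simp [let1, ev]
    rw [this]

lemma sum_word {n d : ℕ} (z : E n) :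
    ∑ a : Fin d → Option (Fin n), ‖ev z (word a)‖ ^ 2 = (1 + ‖z‖ ^ 2) ^ d := by
  have h1 : ∀ a : Fin d → Option (Fin n), ‖ev z (word a)‖ ^ 2 = ∏ i, ‖ev z (let1 (a i))‖ ^ 2 := by
    intro a
    rw [word, ev_prod, norm_prod, Finset.prod_pow]
  simp_rw [h1]
  rw [← sum_let z, Fintype.sum_pow]

/-- every monomial of degree at most `d` is a word. -/
lemma exists_word {n : ℕ} : ∀ (d : ℕ) (m : Fin n →₀ ℕ), m.degree ≤ d →
    ∃ a : Fin d → Option (Fin n), word a = monomial m (1 : ℂ) := by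
  intro d
  induction d with
  | zero =>
    intro m hm
    have h0 : m = 0 := by
      have : m.degree = 0 := Nat.le_zero.mp hm
      exact (Finsupp.degree_eq_zero_iff m).mp this
    refine ⟨fun _ => none, ?_⟩
    rw [h0]
    simp [word]
  | succ d ih =>
    intro m hm
    by_cases h0 : m = 0
    · refine ⟨fun _ => none, ?_⟩
      rw [h0]
      simp [word, let1]
    · obtain ⟨j, hj⟩ : ∃ j, m j ≠ 0 := by
        by_contra hcon
        push Not at hcon
        exact h0 (Finsupp.ext hcon)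
      have hle : Finsupp.single j 1 ≤ m := by
        rw [Finsupp.single_le_iff]
        omega
      obtain ⟨m', hm'⟩ := exists_add_of_le hle
      have hdeg : m'.degree ≤ d := by
        have : m.degree = (Finsupp.single j 1).degree + m'.degree := by
          rw [hm']
          exact map_add _ _ _
        rw [Finsupp.degree_single] at this
        omega
      obtain ⟨a, ha⟩ := ih m' hdeg
      refine ⟨Fin.cons (some j) a, ?_⟩
      have : word (Fin.cons (some j) a : Fin (d + 1) → Option (Fin n)) = X j * word a := by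
        unfold word
        rw [Fin.prod_univ_succ]
        simp [let1]
      rw [this, ha, hm', X, monomial_mul, one_mul]

/-- every polynomial of degree at most `d` is a combination of words. -/
lemma exists_comb {n : ℕ} (d : ℕ) (p : MvPolynomial (Fin n) ℂ) (hp : p.totalDegree ≤ d) :
    ∃ l : (Fin d → Option (Fin n)) → ℂ, ∀ z : E n, ev z p = ∑ a, l a * ev z (word a) := by
  classical
  have key : ∀ m ∈ p.support, ∃ a : Fin d → Option (Fin n), word a = monomial m (1 : ℂ) := by
    intro m hm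
    refine exists_word d m (le_trans ?_ hp)
    exact le_totalDegree hm
  choose! w hw using key
  refine ⟨fun a => ∑ m ∈ p.support, if w m = a then coeff m p else 0, fun z => ?_⟩
  have h1 : ev z p = ∑ m ∈ p.support, coeff m p * ev z (word (w m)) := by
    conv_lhs => rw [p.as_sum]
    rw [ev_sum]
    refine Finset.sum_congr rfl fun m hm => ?_
    rw [hw m hm]
    have : (monomial m (coeff m p) : MvPolynomial (Fin n) ℂ) = C (coeff m p) * monomial m 1 := by
      rw [C_mul_monomial, mul_one]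
    rw [this, ev_mul, ev_C]
  rw [h1]
  simp_rw [Finset.sum_mul]
  rw [Finset.sum_comm]
  refine Finset.sum_congr rfl fun m hm => ?_
  simp [ite_mul]

lemma word_degree {n d : ℕ} (a : Fin d → Option (Fin n)) : (word a).totalDegree ≤ d := by
  unfold word
  refine (totalDegree_finsetProd _ _).trans ?_
  have : ∀ i ∈ (Finset.univ : Finset (Fin d)), (let1 (a i)).totalDegree ≤ 1 := by
    intro i _
    unfold let1
    rcases a i with _ | j
    · simp
    · simp
  refine (Finset.sum_le_sum this).trans ?_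
  simp

/-- the form with matrix `B`. -/
noncomputable def form {n d : ℕ} (B : (Fin d → Option (Fin n)) → (Fin d → Option (Fin n)) → ℂ)
    (z : E n) : ℂ :=
  ∑ a, ∑ b, B a b * (ev z (word a) * (starRingEnd ℂ) (ev z (word b)))

lemma form_of_mul {n d : ℕ} (p r : MvPolynomial (Fin n) ℂ) (hp : p.totalDegree ≤ d)
    (hr : r.totalDegree ≤ d) :
    ∃ B : (Fin d → Option (Fin n)) → (Fin d → Option (Fin n)) → ℂ,
      ∀ z, ev z p * (starRingEnd ℂ) (ev z r) = form B z := by
  obtain ⟨l, hl⟩ := exists_comb d p hp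
  obtain ⟨m, hm⟩ := exists_comb d r hr
  refine ⟨fun a b => l a * (starRingEnd ℂ) (m b), fun z => ?_⟩
  rw [hl, hm, form, map_sum, Finset.sum_mul_sum]
  refine Finset.sum_congr rfl fun a _ => Finset.sum_congr rfl fun b _ => ?_
  rw [map_mul]
  ring

lemma form_add {n d : ℕ} (B B' : (Fin d → Option (Fin n)) → (Fin d → Option (Fin n)) → ℂ)
    (z : E n) : form (fun a b => B a b + B' a b) z = form B z + form B' z := by
  unfold form
  rw [← Finset.sum_add_distrib]
  refine Finset.sum_congr rfl fun a _ => ?_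
  rw [← Finset.sum_add_distrib]
  refine Finset.sum_congr rfl fun b _ => ?_
  ring

lemma form_smul {n d : ℕ} (c : ℂ) (B : (Fin d → Option (Fin n)) → (Fin d → Option (Fin n)) → ℂ)
    (z : E n) : form (fun a b => c * B a b) z = c * form B z := by
  unfold form
  rw [Finset.mul_sum]
  refine Finset.sum_congr rfl fun a _ => ?_
  rw [Finset.mul_sum]
  refine Finset.sum_congr rfl fun b _ => ?_
  ring

/-- functions of the form `form B`. -/
def IsForm {n : ℕ} (d : ℕ) (F : E n → ℂ) : Prop :=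
  ∃ B : (Fin d → Option (Fin n)) → (Fin d → Option (Fin n)) → ℂ, ∀ z, F z = form B z

lemma IsForm.add {n d : ℕ} {F G : E n → ℂ} (hF : IsForm d F) (hG : IsForm d G) :
    IsForm d fun z => F z + G z := by
  obtain ⟨B, hB⟩ := hF
  obtain ⟨B', hB'⟩ := hG
  refine ⟨fun a b => B a b + B' a b, fun z => ?_⟩
  rw [form_add, ← hB, ← hB']

lemma IsForm.smul {n d : ℕ} {F : E n → ℂ} (c : ℂ) (hF : IsForm d F) :
    IsForm d fun z => c * F z := by
  obtain ⟨B, hB⟩ := hF
  refine ⟨fun a b => c * B a b, fun z => ?_⟩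
  rw [form_smul, ← hB]

lemma IsForm.zero {n d : ℕ} : IsForm d (fun _ : E n => (0 : ℂ)) :=
  ⟨fun _ _ => 0, fun z => by simp [form]⟩

lemma IsForm.sum {n d : ℕ} {ι : Type*} (s : Finset ι) {F : ι → E n → ℂ}
    (h : ∀ i ∈ s, IsForm d (F i)) : IsForm d fun z => ∑ i ∈ s, F i z := by
  classical
  induction s using Finset.induction_on with
  | empty => simpa using (IsForm.zero : IsForm d (fun _ : E n => (0 : ℂ)))
  | insert i s hi ih =>
    have h1 := (h i (Finset.mem_insert_self i s)).add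
      (ih fun j hj => h j (Finset.mem_insert_of_mem hj))
    simpa [Finset.sum_insert hi] using h1

lemma isForm_mul {n e : ℕ} {F : E n → ℂ} (hF : F ∈ HermPoly n e) :
    IsForm (e + 1) fun z => (((‖z‖ : ℝ) : ℂ) ^ 2 - 1) * F z := by
  unfold HermPoly at hF
  induction hF using Submodule.span_induction with
  | mem F hF =>
    obtain ⟨p, r, hp, hr, h⟩ := hF
    have h1 : IsForm (e + 1) fun z : E n => ∑ i, ev z (X i * p) * (starRingEnd ℂ) (ev z (X i * r)) := by
      refine IsForm.sum _ fun i _ => ?_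
      refine form_of_mul _ _ ?_ ?_
      · refine (totalDegree_mul _ _).trans ?_
        rw [totalDegree_X]; omega
      · refine (totalDegree_mul _ _).trans ?_
        rw [totalDegree_X]; omega
    have h2 : IsForm (e + 1) fun z : E n => ev z p * (starRingEnd ℂ) (ev z r) :=
      form_of_mul _ _ (by omega) (by omega)
    have h3 := h1.add (h2.smul (-1))
    convert h3 using 2 with z
    rw [h z]
    have h4 : ((‖z‖ : ℝ) : ℂ) ^ 2 = ∑ i, z i * (starRingEnd ℂ) (z i) := by
      rw [← Complex.ofReal_pow, normSq_eq, Complex.ofReal_sum]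
      refine Finset.sum_congr rfl fun i _ => ?_
      rw [Complex.mul_conj, Complex.normSq_eq_norm_sq]
    rw [h4, sub_mul, Finset.sum_mul]
    rw [sub_eq_add_neg]
    congr 1
    · refine Finset.sum_congr rfl fun i _ => ?_
      rw [ev_mul, ev_mul, ev_X, map_mul]
      ring
    · ring
  | zero =>
    simpa using (IsForm.zero : IsForm (e + 1) (fun _ : E n => (0 : ℂ)))
  | add F G _ _ hF hG =>
    have := hF.add hG
    convert this using 2 with z
    simp only [Pi.add_apply]
    ring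
  | smul c F _ hF =>
    have := hF.smul c
    convert this using 2 with z
    simp only [Pi.smul_apply, smul_eq_mul]
    ring

lemma continuous_of_mem {n e : ℕ} {F : E n → ℂ} (hF : F ∈ HermPoly n e) : Continuous F := by
  unfold HermPoly at hF
  induction hF using Submodule.span_induction with
  | mem F hF =>
    obtain ⟨p, r, hp, hr, h⟩ := hF
    have : F = fun z => ev z p * (starRingEnd ℂ) (ev z r) := funext h
    rw [this]
    exact (continuous_ev p).mul (Complex.continuous_conj.comp (continuous_ev r))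
  | zero => exact continuous_const
  | add F G _ _ hF hG => exact hF.add hG
  | smul c F _ hF => exact hF.const_smul c

/-- the coefficients of the squares to subtract. -/
noncomputable def cc {n d : ℕ}
    (B : (Fin d → Option (Fin n)) → (Fin d → Option (Fin n)) → ℂ)
    (a : Fin d → Option (Fin n)) : ℝ :=
  (1 / 2) * (∑ b, ‖B a b‖ ^ 2 + Fintype.card (Fin d → Option (Fin n)))

lemma cc_nonneg {n d : ℕ}
    (B : (Fin d → Option (Fin n)) → (Fin d → Option (Fin n)) → ℂ)
    (a : Fin d → Option (Fin n)) : 0 ≤ cc B a := by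
  unfold cc
  have : 0 ≤ ∑ b, ‖B a b‖ ^ 2 := Finset.sum_nonneg fun b _ => sq_nonneg _
  positivity

lemma re_form {n d : ℕ} (B : (Fin d → Option (Fin n)) → (Fin d → Option (Fin n)) → ℂ)
    (z : E n) : (form B z).re =
      (1 / 2) * (∑ a, ∑ b, ‖B a b * ev z (word a) + ev z (word b)‖ ^ 2) -
        ∑ a, cc B a * ‖ev z (word a)‖ ^ 2 := by
  have key : ∀ u v c : ℂ, (c * (u * (starRingEnd ℂ) v)).re =
      (1 / 2) * (‖c * u + v‖ ^ 2 - ‖c‖ ^ 2 * ‖u‖ ^ 2 - ‖v‖ ^ 2) := by
    intro u v c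
    have h1 : ‖c * u + v‖ ^ 2 = ‖c * u‖ ^ 2 + ‖v‖ ^ 2 + 2 * (c * u * (starRingEnd ℂ) v).re := by
      rw [← Complex.normSq_eq_norm_sq, ← Complex.normSq_eq_norm_sq, ← Complex.normSq_eq_norm_sq,
        Complex.normSq_add]
    rw [h1, norm_mul, mul_pow, mul_assoc]
    ring
  have h1 : (form B z).re = ∑ a, ∑ b, (1 / 2) * (‖B a b * ev z (word a) + ev z (word b)‖ ^ 2 -
      ‖B a b‖ ^ 2 * ‖ev z (word a)‖ ^ 2 - ‖ev z (word b)‖ ^ 2) := by
    unfold form
    rw [Complex.re_sum]
    refine Finset.sum_congr rfl fun a _ => ?_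
    rw [Complex.re_sum]
    refine Finset.sum_congr rfl fun b _ => ?_
    rw [key]
  rw [h1]
  simp_rw [← Finset.mul_sum, Finset.sum_sub_distrib]
  have h2 : ∑ a : Fin d → Option (Fin n), ∑ b : Fin d → Option (Fin n), ‖ev z (word b)‖ ^ 2 =
      ∑ a : Fin d → Option (Fin n),
        (Fintype.card (Fin d → Option (Fin n)) : ℝ) * ‖ev z (word a)‖ ^ 2 := by
    rw [Finset.sum_const, Finset.card_univ, nsmul_eq_mul, Finset.mul_sum]
  rw [h2]
  have h3 : ∑ a, cc B a * ‖ev z (word a)‖ ^ 2 = (1 / 2) * (∑ a, ∑ b, ‖B a b‖ ^ 2 *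
      ‖ev z (word a)‖ ^ 2 + ∑ a : Fin d → Option (Fin n),
        (Fintype.card (Fin d → Option (Fin n)) : ℝ) * ‖ev z (word a)‖ ^ 2) := by
    rw [← Finset.sum_add_distrib, Finset.mul_sum]
    refine Finset.sum_congr rfl fun a _ => ?_
    rw [← Finset.sum_mul, cc]
    ring
  rw [h3]
  ring

/-- the polynomials of the construction. -/
noncomputable def poly {n d : ℕ} (ε : ℝ)
    (B : (Fin d → Option (Fin n)) → (Fin d → Option (Fin n)) → ℂ) :
    ((Fin d → Option (Fin n)) ⊕ (Fin d → Option (Fin n)) × (Fin d → Option (Fin n))) →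
      MvPolynomial (Fin n) ℂ
  | Sum.inl a => C ((Real.sqrt (1 - ε * cc B a) : ℝ) : ℂ) * word a
  | Sum.inr (a, b) => C ((Real.sqrt (ε / 2) : ℝ) : ℂ) * (C (B a b) * word a + word b)

lemma poly_degree {n d : ℕ} (ε : ℝ)
    (B : (Fin d → Option (Fin n)) → (Fin d → Option (Fin n)) → ℂ)
    (j : (Fin d → Option (Fin n)) ⊕ (Fin d → Option (Fin n)) × (Fin d → Option (Fin n))) :
    (poly ε B j).totalDegree ≤ d := by
  have hC : ∀ (c : ℂ) (p : MvPolynomial (Fin n) ℂ), p.totalDegree ≤ d →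
      (C c * p).totalDegree ≤ d := by
    intro c p hp
    refine (totalDegree_mul _ _).trans ?_
    rw [totalDegree_C]
    omega
  rcases j with a | ⟨a, b⟩
  · exact hC _ _ (word_degree a)
  · refine hC _ _ ((totalDegree_add _ _).trans (max_le (hC _ _ (word_degree a)) (word_degree b)))

lemma sum_poly {n d : ℕ} (ε : ℝ) (hε : 0 ≤ ε)
    (B : (Fin d → Option (Fin n)) → (Fin d → Option (Fin n)) → ℂ)
    (hB : ∀ a, 0 ≤ 1 - ε * cc B a) (z : E n) :
    ∑ j, ‖ev z (poly ε B j)‖ ^ 2 = (1 + ‖z‖ ^ 2) ^ d + ε * (form B z).re := by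
  rw [Fintype.sum_sum_type, Fintype.sum_prod_type]
  have h1 : ∀ a, ‖ev z (poly ε B (Sum.inl a))‖ ^ 2 = (1 - ε * cc B a) * ‖ev z (word a)‖ ^ 2 := by
    intro a
    rw [poly, ev_mul, ev_C, norm_mul, mul_pow, Complex.norm_real, Real.norm_eq_abs, sq_abs,
      Real.sq_sqrt (hB a)]
  have h2 : ∀ a b, ‖ev z (poly ε B (Sum.inr (a, b)))‖ ^ 2 =
      (ε / 2) * ‖B a b * ev z (word a) + ev z (word b)‖ ^ 2 := by
    intro a b
    rw [poly, ev_mul, ev_C, norm_mul, mul_pow, Complex.norm_real, Real.norm_eq_abs, sq_abs,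
      Real.sq_sqrt (by positivity), ev_add, ev_mul, ev_C]
  simp_rw [h1, h2, re_form, ← Finset.mul_sum]
  rw [← sum_word z]
  have h3 : ∑ a, (1 - ε * cc B a) * ‖ev z (word a)‖ ^ 2 =
      ∑ a : Fin d → Option (Fin n), ‖ev z (word a)‖ ^ 2 -
        ε * ∑ a, cc B a * ‖ev z (word a)‖ ^ 2 := by
    rw [Finset.mul_sum, ← Finset.sum_sub_distrib]
    refine Finset.sum_congr rfl fun a _ => ?_
    ring
  rw [h3]
  ring

lemma one_le_Q0 (n e : ℕ) (z : E n) : 1 ≤ Q0 n e z := by
  unfold Q0
  rw [Finset.sum_range_succ]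
  have h1 : 0 ≤ ∑ j ∈ Finset.range e, (2 : ℝ) ^ (e - j) * (1 + ‖z‖ ^ 2) ^ j :=
    Finset.sum_nonneg fun j _ => by positivity
  have h2 : (1 : ℝ) ≤ (1 + ‖z‖ ^ 2) ^ e := by
    apply one_le_pow₀
    nlinarith [sq_nonneg ‖z‖]
  rw [Nat.sub_self, pow_zero, one_mul]
  linarith

lemma Q0_mul (n e : ℕ) (z : E n) :
    (1 - ‖z‖ ^ 2) * Q0 n e z = 2 ^ (e + 1) - (1 + ‖z‖ ^ 2) ^ (e + 1) := by
  have h := (Commute.all (1 + ‖z‖ ^ 2 : ℝ) 2).geom_sum₂_mul (e + 1)
  have h2 : Q0 n e z = ∑ i ∈ Finset.range (e + 1), (1 + ‖z‖ ^ 2) ^ i * 2 ^ (e + 1 - 1 - i) := by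
    unfold Q0
    refine Finset.sum_congr rfl fun j _ => ?_
    rw [Nat.add_sub_cancel]
    ring
  rw [← h2] at h
  linarith

theorem con : ConStmt := by
  intro n e R hn he hR
  classical
  obtain ⟨B, hB⟩ := isForm_mul hR
  -- R is bounded on the closed ball
  have hcont : Continuous fun z => ((R z : ℝ) : ℂ) := continuous_of_mem hR
  obtain ⟨M, hM⟩ := (isCompact_closedBall (0 : E n) 1).exists_bound_of_continuousOn
    hcont.continuousOn
  have hM0 : 0 ≤ M := by
    have := hM 0 (by simp)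
    exact (norm_nonneg _).trans this
  set S : ℝ := ∑ a, cc B a with hS
  have hS0 : 0 ≤ S := Finset.sum_nonneg fun a _ => cc_nonneg B a
  have hform : ∀ z, (form B z).re = (‖z‖ ^ 2 - 1) * R z := by
    intro z
    rw [← hB z]
    show ((((‖z‖ : ℝ) : ℂ) ^ 2 - 1) * ((R z : ℝ) : ℂ)).re = _
    rw [← Complex.ofReal_pow, ← Complex.ofReal_one, ← Complex.ofReal_sub, ← Complex.ofReal_mul,
      Complex.ofReal_re]
  refine ⟨1 / (1 + S + M), by positivity, fun ε hε hlt => ?_⟩
  have hεS : ε * (1 + S + M) < 1 := by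
    rwa [lt_div_iff₀ (by positivity)] at hlt
  have hpos : ∀ a, 0 < 1 - ε * cc B a := by
    intro a
    have h1 : cc B a ≤ S := Finset.single_le_sum (fun a _ => cc_nonneg B a) (Finset.mem_univ a)
    nlinarith
  have hsum : ∀ z : E n, ∑ j, ‖ev z (poly ε B j)‖ ^ 2 =
      (1 + ‖z‖ ^ 2) ^ (e + 1) + ε * ((‖z‖ ^ 2 - 1) * R z) := by
    intro z
    rw [sum_poly ε hε.le B (fun a => (hpos a).le) z, hform]
  let J := (Fin (e + 1) → Option (Fin n)) ⊕
    (Fin (e + 1) → Option (Fin n)) × (Fin (e + 1) → Option (Fin n))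
  let eq : Fin (Fintype.card J) ≃ J := (Fintype.equivFin J).symm
  have hsum' : ∀ z : E n, ∑ i, ‖ev z (poly ε B (eq i))‖ ^ 2 =
      (1 + ‖z‖ ^ 2) ^ (e + 1) + ε * ((‖z‖ ^ 2 - 1) * R z) := by
    intro z
    rw [Equiv.sum_comp eq (fun j => ‖ev z (poly ε B j)‖ ^ 2)]
    exact hsum z
  have hq : ∀ z : E n, ‖ev z (C ((Real.sqrt (2 ^ (e + 1)) : ℝ) : ℂ))‖ ^ 2 = 2 ^ (e + 1) := by
    intro z
    rw [ev_C, Complex.norm_real, Real.norm_eq_abs, sq_abs, Real.sq_sqrt (by positivity)]
  have hdef : ∀ z : E n, ‖ev z (C ((Real.sqrt (2 ^ (e + 1)) : ℝ) : ℂ))‖ ^ 2 -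
      ∑ i, ‖ev z (poly ε B (eq i))‖ ^ 2 = (1 - ‖z‖ ^ 2) * (Q0 n e z + ε * R z) := by
    intro z
    rw [hq, hsum', mul_add, Q0_mul]
    ring
  have hq0 : ((Real.sqrt (2 ^ (e + 1)) : ℝ) : ℂ) ≠ 0 := by
    rw [Complex.ofReal_ne_zero]
    exact (Real.sqrt_pos.mpr (by positivity)).ne'
  let f : RatSphereMap n (Fintype.card J) :=
    { p := fun i => poly ε B (eq i)
      q := C ((Real.sqrt (2 ^ (e + 1)) : ℝ) : ℂ)
      q_ne := fun z _ => by rw [ev_C]; exact hq0
      lowest := fun h _ h2 => by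
        refine isUnit_of_dvd_unit h2 ?_
        exact (isUnit_iff_ne_zero.mpr hq0).map C
      sphere := fun z hz => by
        have := hdef z
        rw [hz] at this
        linarith
      ball := fun z hz => by
        have h1 := hdef z
        have h2 : 0 < 1 - ‖z‖ ^ 2 := by nlinarith [norm_nonneg z]
        have h3 : |R z| ≤ M := by
          have := hM z (by simpa using hz.le)
          simpa using this
        have h4 : 0 < Q0 n e z + ε * R z := by
          have h5 := one_le_Q0 n e z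
          have h6 : -M ≤ R z := (abs_le.mp h3).1
          nlinarith
        nlinarith [mul_pos h2 h4] }
  refine ⟨Fintype.card J, f, ?_, 1, one_pos, fun z => ?_⟩
  · show max (Finset.univ.sup fun i => (poly ε B (eq i)).totalDegree)
      (C ((Real.sqrt (2 ^ (e + 1)) : ℝ) : ℂ) : MvPolynomial (Fin n) ℂ).totalDegree = e + 1
    rw [totalDegree_C, Nat.max_zero]
    refine le_antisymm (Finset.sup_le fun i _ => poly_degree ε B _) ?_
    let a : Fin (e + 1) → Option (Fin n) := fun _ => some ⟨0, hn⟩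
    have h1 : (poly ε B (eq (eq.symm (Sum.inl a)))).totalDegree = e + 1 := by
      rw [Equiv.apply_symm_apply, poly]
      have h2 : (word a) = (X ⟨0, hn⟩ : MvPolynomial (Fin n) ℂ) ^ (e + 1) := by
        unfold word
        simp [a, let1]
      have h3 : ((Real.sqrt (1 - ε * cc B a) : ℝ) : ℂ) ≠ 0 := by
        rw [Complex.ofReal_ne_zero]
        exact (Real.sqrt_pos.mpr (hpos a)).ne'
      rw [totalDegree_mul_of_isDomain (by rwa [Ne, C_eq_zero]) (by rw [h2]; exact pow_ne_zero _ (X_ne_zero _)),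
        totalDegree_C, h2, totalDegree_X_pow, zero_add]
    exact h1.symm.trans_le
      (Finset.le_sup (f := fun i => (poly ε B (eq i)).totalDegree) (Finset.mem_univ _))
  · rw [one_mul]
    exact hdef z

end Pool.Agent.H30.RSM
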